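import Mathlib
import Pool.Agent.H829R3.Strat

set_option autoImplicit false

/-! Over an infinite field every full block filter has the strong `(p)` property.
First part: vectors that split into marked pieces, each allowed after the previous ones. -/

namespace Pool.Agent.Y467.SF

open Pool.Agent.H829R3

variable {F : Type*} [Field F]

/-- Every member of the list is allowed after the normalised previous members. -/
def GoodFrom (R : List (ℕ →₀ F) → Set (ℕ →₀ F)) :
    List (ℕ →₀ F) → List (ℕ →₀ F) → Prop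
  | _, [] => True
  | pre, z :: L => z ∈ R pre ∧ GoodFrom R (pre ++ [nrm z]) L

/-- The last point of the support. -/
def hm (z : ℕ →₀ F) : ℕ := z.support.sup id

theorem hm_le (z : ℕ →₀ F) : ∀ t ∈ z.support, t ≤ hm z := fun _ ht => Finset.le_sup (f := id) ht

theorem hm_smul (c : F) (hc : c ≠ 0) (z : ℕ →₀ F) : hm (c • z) = hm z := by
  unfold hm
  rw [Finsupp.support_smul_eq hc]

theorem hm_nrm (z : ℕ →₀ F) : hm (nrm z) = hm z := by
  unfold hm
  rw [supp_nrm]

/-- The decompositions of `v` into marked pieces, each allowed after the previous ones. -/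
def Dec (R : List (ℕ →₀ F) → Set (ℕ →₀ F)) (v : ℕ →₀ F) :
    Set (List (ℕ →₀ F)) :=
  {L | (∀ z ∈ L, z ≠ 0 ∧ Marker z) ∧ L.Pairwise (Gap hm) ∧ L.sum = v ∧ GoodFrom R [] L}

theorem goodFrom_left {R : List (ℕ →₀ F) → Set (ℕ →₀ F)}
    {A B : List (ℕ →₀ F)} : ∀ {pre : List (ℕ →₀ F)}, GoodFrom R pre (A ++ B) →
      GoodFrom R pre A := by
  induction A with
  | nil => intro pre _; trivial
  | cons z A ih => intro pre h; exact ⟨h.1, ih h.2⟩

theorem goodFrom_getElem {R : List (ℕ →₀ F) → Set (ℕ →₀ F)}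
    {L : List (ℕ →₀ F)} : ∀ {pre : List (ℕ →₀ F)}, GoodFrom R pre L →
      ∀ (i : ℕ) (hi : i < L.length), L[i] ∈ R (pre ++ (L.take i).map nrm) := by
  induction L with
  | nil => intro pre _ i hi; simp at hi
  | cons z L ih =>
    intro pre h i hi
    cases i with
    | zero => simpa using h.1
    | succ i =>
      have := ih h.2 i (by simpa using hi)
      simpa [List.take_succ_cons, List.append_assoc] using this

theorem mem_of_list {𝓕 : Filter (ℕ →₀ F)} {R : List (ℕ →₀ F) → Set (ℕ →₀ F)}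
    (hR : ∀ l, R l ∈ 𝓕) (ls : List (List (ℕ →₀ F))) : {v | ∀ s ∈ ls, v ∈ R s} ∈ 𝓕 := by
  induction ls with
  | nil => simp
  | cons l ls ih =>
    filter_upwards [ih, hR l] with v h1 h2
    intro s hs
    rcases List.mem_cons.1 hs with rfl | hs
    · exact h2
    · exact h1 s hs

theorem Dec_mem {𝓕 : Filter (ℕ →₀ F)} (hbase : BlockBase 𝓕) (hfull : Full 𝓕)
    {R : List (ℕ →₀ F) → Set (ℕ →₀ F)} (hR : ∀ l, R l ∈ 𝓕)
    (hRs : ∀ l v, v ∈ R l → ∀ c : F, c ≠ 0 → c • v ∈ R l) :
    {v | (Dec R v).Nonempty} ∈ 𝓕 := by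
  classical
  apply hfull
  intro X1 hX1 hX1𝓕
  have hX1' : sp X1 ∈ 𝓕 := hX1𝓕
  have hX1b : IsBlock X1 := hX1
  have hstep : ∀ (l : List (ℕ →₀ F)) (W : {W : ℕ → (ℕ →₀ F) // IsBlock W ∧ sp W ∈ 𝓕}),
      ∃ (W' : {W : ℕ → (ℕ →₀ F) // IsBlock W ∧ sp W ∈ 𝓕}) (z : ℕ →₀ F),
        sp W'.1 ⊆ sp W.1 ∧ (∀ s ∈ l.sublists, sp W'.1 ⊆ R s) ∧
        z ∈ Submodule.span F (Set.range W'.1) ∧ z ≠ 0 ∧ Marker z ∧
        ∀ t ∈ z.support, (l.map hm).sum < t := by
    rintro l ⟨W, hW, hW𝓕⟩
    obtain ⟨z', hz', hz'𝓕, hz's⟩ := hbase _ (Filter.inter_mem hW𝓕 (mem_of_list hR l.sublists))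
    obtain ⟨z, h1, h2, h3, h4⟩ := exists_marked (W := z') hz' (l.map hm).sum
    refine ⟨⟨z', hz', hz'𝓕⟩, z, fun v hv => (hz's hv).1, ?_, h1, h2, h3, h4⟩
    intro s hs v hv
    exact (hz's hv).2 s hs
  choose Wf zf hWf hDf hzf1 hzf2 hzf3 hzf4 using hstep
  obtain ⟨lst, wst, hl0, hw0, hls, hws⟩ : ∃ (lst : ℕ → List (ℕ →₀ F))
      (wst : ℕ → {W : ℕ → (ℕ →₀ F) // IsBlock W ∧ sp W ∈ 𝓕}),
      lst 0 = [] ∧ wst 0 = ⟨X1, hX1b, hX1'⟩ ∧
      (∀ n, lst (n+1) = lst n ++ [nrm (zf (lst n) (wst n))]) ∧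
      (∀ n, wst (n+1) = Wf (lst n) (wst n)) := by
    let st : ℕ → List (ℕ →₀ F) × {W : ℕ → (ℕ →₀ F) // IsBlock W ∧ sp W ∈ 𝓕} := fun n =>
      Nat.rec ([], ⟨X1, hX1b, hX1'⟩) (fun _ s => (s.1 ++ [nrm (zf s.1 s.2)], Wf s.1 s.2)) n
    exact ⟨fun n => (st n).1, fun n => (st n).2, rfl, rfl, fun _ => rfl, fun _ => rfl⟩
  obtain ⟨z, hz⟩ : ∃ z : ℕ → (ℕ →₀ F), ∀ n, z n = zf (lst n) (wst n) := ⟨_, fun _ => rfl⟩
  have hl : ∀ n, lst n = (List.range n).map (fun i => nrm (z i)) := by
    intro n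
    induction n with
    | zero => rw [hl0]; rfl
    | succ n ih =>
      rw [hls, List.range_succ, List.map_append, ← ih, List.map_cons, List.map_nil, ← hz]
  have hz0 : ∀ n, z n ≠ 0 := fun n => by rw [hz]; exact hzf2 _ _
  have hzM : ∀ n, Marker (z n) := fun n => by rw [hz]; exact hzf3 _ _
  have hWs : ∀ n, sp (wst (n+1)).1 ⊆ sp (wst n).1 := fun n => by rw [hws]; exact hWf _ _
  have hW0' : ∀ n, sp (wst n).1 ⊆ sp X1 := by
    intro n
    induction n with
    | zero => rw [hw0]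
    | succ n ih => exact (hWs n).trans ih
  have hzsp : ∀ n, z n ∈ sp (wst (n+1)).1 := fun n => by
    refine ⟨?_, hz0 n⟩
    rw [hws, hz]
    exact hzf1 _ _
  have hzW : ∀ n, z n ∈ Submodule.span F (Set.range X1) := fun n => (hW0' _ (hzsp n)).1
  have hgap : ∀ i j, i < j → Gap hm (z i) (z j) := by
    intro i j hij t ht
    rw [hz j] at ht
    have h1 := hzf4 _ _ t ht
    have h2 : hm (z i) ≤ ((lst j).map hm).sum := by
      apply List.single_le_sum (fun _ _ => Nat.zero_le _)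
      rw [hl, List.map_map, List.mem_map]
      exact ⟨i, List.mem_range.2 hij, hm_nrm _⟩
    omega
  have hzb : IsBlock z := by
    intro n
    refine ⟨hz0 n, ?_⟩
    intro i hi j hj
    exact lt_of_le_of_lt (hm_le _ i hi) (hgap n (n+1) (Nat.lt_succ_self n) j hj)
  have hzsub : Submodule.span F (Set.range z) ≤ Submodule.span F (Set.range X1) := by
    rw [Submodule.span_le]
    rintro _ ⟨n, rfl⟩
    exact hzW n
  have hgood : ∀ (c : ℕ → F) (S : List ℕ) (m : ℕ) (pre : List (ℕ →₀ F)),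
      S.Pairwise (· < ·) → (∀ j ∈ S, m ≤ j) → (∀ j ∈ S, c j ≠ 0) →
      pre.Sublist ((List.range m).map (fun i => nrm (z i))) →
      GoodFrom R pre (S.map (fun j => c j • z j)) := by
    intro c S
    induction S with
    | nil => intro m pre _ _ _ _; trivial
    | cons j S ih =>
      intro m pre hS hm' hc hpre
      rw [List.pairwise_cons] at hS
      have hmj : m ≤ j := hm' j List.mem_cons_self
      have hpre' : pre.Sublist ((List.range j).map (fun i => nrm (z i))) :=
        hpre.trans ((List.range_sublist.2 hmj).map _)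
      refine ⟨?_, ?_⟩
      · apply hRs
        · apply hDf (lst j) (wst j) pre
          · rw [List.mem_sublists, hl]
            exact hpre'
          · rw [← hws]
            exact hzsp j
        · exact hc j List.mem_cons_self
      · rw [nrm_smul (hc j List.mem_cons_self)]
        apply ih (j+1) _ hS.2
        · intro k hk
          exact hS.1 k hk
        · intro k hk
          exact hc k (List.mem_cons_of_mem _ hk)
        · rw [List.range_succ, List.map_append]
          exact hpre'.append (List.Sublist.refl _)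
  refine ⟨Submodule.span F (Set.range z), hzb.not_finiteDimensional, ?_, ?_⟩
  · rintro v ⟨hv, hv0⟩
    exact ⟨hzsub hv, hv0⟩
  · rintro v ⟨hv, _⟩
    obtain ⟨c, rfl⟩ := mem_span_iff_lc.1 hv
    have hsorted : (c.support.sort (· ≤ ·)).Pairwise (· < ·) := (Finset.sortedLT_sort _).pairwise
    have hmem : ∀ x ∈ c.support.sort (· ≤ ·), c x ≠ 0 := by
      intro x hx
      exact Finsupp.mem_support_iff.1 ((Finset.mem_sort _).1 hx)
    refine ⟨(c.support.sort (· ≤ ·)).map (fun j => c j • z j), ?_, ?_, ?_, ?_⟩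
    · intro w hw
      rw [List.mem_map] at hw
      obtain ⟨j, hj, rfl⟩ := hw
      exact ⟨smul_ne_zero (hmem j hj) (hz0 j), (hzM j).smul (hmem j hj)⟩
    · rw [List.pairwise_map]
      refine List.Pairwise.imp_of_mem ?_ hsorted
      intro a b ha hb hab t ht
      have hb' : t ∈ (z b).support := by
        rwa [Finsupp.support_smul_eq (hmem b hb)] at ht
      rw [hm_smul (c a) (hmem a ha)]
      exact hgap a b hab t hb'
    · rw [Finsupp.linearCombination_apply, Finsupp.sum]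
      rw [← List.sum_toFinset _ (Finset.sort_nodup _ _), Finset.sort_toFinset]
    · exact hgood c _ 0 [] hsorted (fun _ _ => Nat.zero_le _) hmem (List.nil_sublist _)

end Pool.Agent.Y467.SF
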