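import Mathlib
import Pool.Agent.Y467.SF.Dens

set_option autoImplicit false

/-! Splitting decompositions, and a compactness argument. -/

namespace Pool.Agent.Y467.SF

open Pool.Agent.H829R3

variable {F : Type*} [Field F]

/-- A gap separated list of marked vectors whose sum is `u + w`, where `u` lies before `w` and has
no coefficient in common with `w`, splits into a list with sum `u` and a list with sum `w`. -/
theorem split_list : ∀ (L : List (ℕ →₀ F)) (u w : ℕ →₀ F),
    (∀ z ∈ L, z ≠ 0 ∧ Marker z) → L.Pairwise (Gap hm) → L.sum = u + w →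
    (∀ s ∈ u.support, ∀ t ∈ w.support, s < t) →
    (∀ s ∈ u.support, ∀ t ∈ w.support, u s ≠ w t) →
    ∃ A B : List (ℕ →₀ F), L = A ++ B ∧ A.sum = u ∧ B.sum = w := by
  classical
  intro L
  induction L with
  | nil =>
    intro u w _ _ hsum hlt _
    have hu : u = 0 := by
      ext s
      by_contra hs
      have hs' : s ∈ u.support := Finsupp.mem_support_iff.2 hs
      have h1 : w s = 0 := by
        by_contra h
        exact lt_irrefl _ (hlt s hs' s (Finsupp.mem_support_iff.2 h))
      have h2 := congrArg (fun v : ℕ →₀ F => v s) hsum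
      simp only [List.sum_nil, Finsupp.coe_zero, Pi.zero_apply, Finsupp.add_apply, h1,
        add_zero] at h2
      exact hs h2.symm
    subst hu
    refine ⟨[], [], rfl, rfl, ?_⟩
    simpa using hsum
  | cons z L ih =>
    intro u w hL hP hsum hlt hne
    have hdisj : ∀ s ∈ u.support, w s = 0 := by
      intro s hs
      by_contra h
      exact lt_irrefl _ (hlt s hs s (Finsupp.mem_support_iff.2 h))
    have hdisj2 : ∀ s ∈ w.support, u s = 0 := by
      intro s hs
      by_contra h
      exact lt_irrefl _ (hlt s (Finsupp.mem_support_iff.2 h) s hs)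
    have hzv : ∀ s ∈ z.support, (u + w) s = z s := by
      intro s hs
      rw [← hsum]
      exact sum_apply_of_mem hm_le hP List.mem_cons_self hs
    have hzs : ∀ s ∈ z.support, s ∈ u.support ∨ s ∈ w.support := by
      intro s hs
      by_contra hcon
      push Not at hcon
      have h1 : u s = 0 := by simpa using hcon.1
      have h2 : w s = 0 := by simpa using hcon.2
      have h3 := hzv s hs
      rw [Finsupp.add_apply, h1, h2, add_zero] at h3
      exact (Finsupp.mem_support_iff.1 hs) h3.symm
    have hu_of : ∀ s, s ∈ u.support → s ∈ z.support → u s = z s := by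
      intro s hs hsz
      have := hzv s hsz
      rwa [Finsupp.add_apply, hdisj s hs, add_zero] at this
    have hw_of : ∀ s, s ∈ w.support → s ∈ z.support → w s = z s := by
      intro s hs hsz
      have := hzv s hsz
      rwa [Finsupp.add_apply, hdisj2 s hs, zero_add] at this
    obtain ⟨s, hs, t, ht, hst, he⟩ := (hL z List.mem_cons_self).2
    rw [List.pairwise_cons] at hP
    rcases hzs t ht with htu | htw
    · -- the whole piece lies in `u`
      have hzu : ∀ x ∈ z.support, x ∈ u.support := by
        intro x hx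
        rcases hzs x hx with h | h
        · exact h
        · exfalso
          have h1 := hlt t htu x h
          have h2 := (hst x hx).2
          omega
      have hu' : ∀ x ∈ (u - z).support, x ∈ u.support ∧ (u - z) x = u x := by
        intro x hx
        by_cases hxz : x ∈ z.support
        · exfalso
          apply Finsupp.mem_support_iff.1 hx
          rw [Finsupp.sub_apply, hu_of x (hzu x hxz) hxz, sub_self]
        · have h0 : z x = 0 := by simpa using hxz
          have h1 : (u - z) x = u x := by rw [Finsupp.sub_apply, h0, sub_zero]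
          refine ⟨?_, h1⟩
          rw [Finsupp.mem_support_iff, ← h1]
          exact Finsupp.mem_support_iff.1 hx
      obtain ⟨A, B, hAB, hA, hB⟩ := ih (u - z) w (fun y hy => hL y (List.mem_cons_of_mem _ hy))
        hP.2 (by
          rw [List.sum_cons] at hsum
          rw [sub_add_eq_add_sub, ← hsum, add_sub_cancel_left])
        (fun a ha b hb => hlt a (hu' a ha).1 b hb)
        (fun a ha b hb => by rw [(hu' a ha).2]; exact hne a (hu' a ha).1 b hb)
      refine ⟨z :: A, B, by rw [hAB]; rfl, ?_, hB⟩
      rw [List.sum_cons, hA, add_sub_cancel]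
    · -- the whole piece lies in `w`
      have hsw : s ∈ w.support := by
        rcases hzs s hs with h | h
        · exfalso
          apply hne s h t htw
          rw [hu_of s h hs, hw_of t htw ht, he]
        · exact h
      have hu0 : u = 0 := by
        ext x
        by_contra hx
        have hx' : x ∈ u.support := Finsupp.mem_support_iff.2 hx
        have hxs : x < s := hlt x hx' s hsw
        have hsumx : (z :: L).sum x ≠ 0 := by
          rw [hsum, Finsupp.add_apply, hdisj x hx', add_zero]
          exact hx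
        obtain ⟨z', hz', hxz'⟩ := exists_mem_of_sum_apply_ne hsumx
        rcases List.mem_cons.1 hz' with rfl | hz'L
        · have := (hst x hxz').1
          omega
        · have h1 := hP.1 z' hz'L x hxz'
          have h2 := hm_le z s hs
          omega
      subst hu0
      exact ⟨[], z :: L, rfl, rfl, by rw [hsum, zero_add]⟩

/-- Two prefixes of one gap separated list of nonzero vectors. -/
theorem prefix_of_sum {L A B : List (ℕ →₀ F)} (hP : L.Pairwise (Gap hm)) (hA : A <+: L)
    (hB : B <+: L) {s : ℕ} (hsA : s ∉ A.sum.support) (hsB : s ∈ B.sum.support) : A <+: B := by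
  rcases List.prefix_or_prefix_of_prefix hA hB with h | h
  · exact h
  · exfalso
    obtain ⟨C, rfl⟩ := h
    obtain ⟨z, hz, hsz⟩ := exists_mem_of_sum_apply_ne (Finsupp.mem_support_iff.1 hsB)
    apply hsA
    have hPA : (B ++ C).Pairwise (Gap hm) := hP.sublist hA.sublist
    rw [Finsupp.mem_support_iff, sum_apply_of_mem hm_le hPA (List.mem_append_left _ hz) hsz]
    exact Finsupp.mem_support_iff.1 hsz

theorem Dec_finite {R : List (ℕ →₀ F) → Set (ℕ →₀ F)}
    (v : ℕ →₀ F) : (Dec R v).Finite := by
  classical
  -- the pieces are restrictions of `v`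
  let S : Finset (ℕ →₀ F) := v.support.powerset.image (fun s => v.filter (· ∈ s))
  have hS : ∀ L ∈ Dec R v, ∀ z ∈ L, z ∈ S := by
    rintro L ⟨hL1, hL2, hL3, -⟩ z hz
    have h1 : ∀ t ∈ z.support, v t = z t := by
      intro t ht
      rw [← hL3]
      exact sum_apply_of_mem hm_le hL2 hz ht
    rw [Finset.mem_image]
    refine ⟨z.support, ?_, ?_⟩
    · rw [Finset.mem_powerset]
      intro t ht
      rw [Finsupp.mem_support_iff, h1 t ht]
      exact Finsupp.mem_support_iff.1 ht
    · ext t
      by_cases ht : t ∈ z.support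
      · rw [Finsupp.filter_apply_pos _ _ ht, h1 t ht]
      · rw [Finsupp.filter_apply_neg _ _ ht]
        exact (by simpa using ht : z t = 0).symm
  have hnd : ∀ L ∈ Dec R v, L.Nodup := by
    rintro L ⟨hL1, hL2, -, -⟩
    refine List.Pairwise.imp_of_mem ?_ hL2
    rintro a b ha hb hab rfl
    obtain ⟨t, ht⟩ := Finsupp.support_nonempty_iff.2 (hL1 a ha).1
    have h1 := hab t ht
    have h2 := hm_le a t ht
    omega
  have hfin : {l : List S | l.length ≤ S.card}.Finite := List.finite_length_le _ _
  refine (hfin.image (fun l => l.map Subtype.val)).subset ?_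
  intro L hL
  refine ⟨L.attach.map (fun z => ⟨z.1, hS L hL z.1 z.2⟩), ?_, ?_⟩
  · simp only [Set.mem_ofPred_eq, List.length_map, List.length_attach]
    rw [← List.toFinset_card_of_nodup (hnd L hL)]
    apply Finset.card_le_card
    intro z hz
    exact hS L hL z (List.mem_toFinset.1 hz)
  · simp [List.map_map, Function.comp_def]

/-- Compactness: decompositions of all the partial sums give one sequence of reachable vectors
whose span contains all of them. -/
theorem exists_seq {R : List (ℕ →₀ F) → Set (ℕ →₀ F)}
    (hRs : ∀ l v, v ∈ R l → ∀ c : F, c ≠ 0 → c • v ∈ R l)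
    {y : ℕ → (ℕ →₀ F)} (hy : IsBlock y)
    (hval : ∀ i j, i < j → ∀ s ∈ (y i).support, ∀ t ∈ (y j).support, y i s ≠ y j t)
    (hdec : ∀ n, (Dec R (∑ i ∈ Finset.range (n+1), y i)).Nonempty) :
    ∃ U : ℕ → (ℕ →₀ F), IsBlock U ∧
      (∀ k, U k ∈ R (List.ofFn (fun i : Fin k => U i.val))) ∧
      ∀ n, y n ∈ Submodule.span F (Set.range U) := by
  classical
  set v : ℕ → (ℕ →₀ F) := fun n => ∑ i ∈ Finset.range (n+1), y i with hv
  -- values of partial sums
  have hvs : ∀ n t, t ∈ (v n).support → ∃ i ≤ n, t ∈ (y i).support ∧ v n t = y i t := by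
    intro n t ht
    have h1 : v n t ≠ 0 := Finsupp.mem_support_iff.1 ht
    have h2 : v n t = ∑ i ∈ Finset.range (n+1), y i t := by
      simp [hv, Finsupp.finsetSum_apply]
    have h3 : ∃ i ∈ Finset.range (n+1), y i t ≠ 0 := by
      by_contra hcon
      push Not at hcon
      apply h1
      rw [h2]
      exact Finset.sum_eq_zero hcon
    obtain ⟨i, hi, hit⟩ := h3
    have hit' : t ∈ (y i).support := Finsupp.mem_support_iff.2 hit
    refine ⟨i, Nat.lt_succ_iff.1 (Finset.mem_range.1 hi), hit', ?_⟩
    rw [h2]
    refine Finset.sum_eq_single_of_mem i hi ?_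
    intro j _ hji
    by_contra hne
    have hjt : t ∈ (y j).support := Finsupp.mem_support_iff.2 hne
    rcases lt_or_gt_of_ne hji with h | h
    · exact lt_irrefl _ (hy.lt h t hjt t hit')
    · exact lt_irrefl _ (hy.lt h t hit' t hjt)
  have hvy : ∀ n i, i ≤ n → ∀ t ∈ (y i).support, v n t = y i t := by
    intro n i hi t ht
    have h2 : v n t = ∑ i ∈ Finset.range (n+1), y i t := by
      simp [hv, Finsupp.finsetSum_apply]
    rw [h2]
    refine Finset.sum_eq_single_of_mem i (Finset.mem_range.2 (by omega)) ?_
    intro j _ hji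
    by_contra hne
    have hjt : t ∈ (y j).support := Finsupp.mem_support_iff.2 hne
    rcases lt_or_gt_of_ne hji with h | h
    · exact lt_irrefl _ (hy.lt h t hjt t ht)
    · exact lt_irrefl _ (hy.lt h t ht t hjt)
  -- splitting
  have hsplit : ∀ n, ∀ j ≤ n, ∀ L ∈ Dec R (v n), ∃ A, A <+: L ∧ A ∈ Dec R (v j) := by
    intro n j hj L hL
    obtain ⟨hL1, hL2, hL3, hL4⟩ := hL
    have hw : ∀ t ∈ (v n - v j).support, ∃ i, j < i ∧ i ≤ n ∧ t ∈ (y i).support ∧
        (v n - v j) t = y i t := by
      intro t ht
      have h1 : (v n - v j) t ≠ 0 := Finsupp.mem_support_iff.1 ht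
      have h0 : v n t ≠ 0 := by
        intro h0
        apply h1
        rw [Finsupp.sub_apply, h0]
        have : v j t = 0 := by
          by_contra hne
          obtain ⟨i, hi, hit, _⟩ := hvs j t (Finsupp.mem_support_iff.2 hne)
          have := hvy n i (hi.trans hj) t hit
          rw [h0] at this
          exact (Finsupp.mem_support_iff.1 hit) this.symm
        rw [this, sub_zero]
      obtain ⟨i, hi, hit, hie⟩ := hvs n t (Finsupp.mem_support_iff.2 h0)
      have hji : j < i := by
        by_contra hle
        push Not at hle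
        apply h1
        rw [Finsupp.sub_apply, hie, hvy j i hle t hit, sub_self]
      refine ⟨i, hji, hi, hit, ?_⟩
      have : v j t = 0 := by
        by_contra hne
        obtain ⟨i', hi', hit', _⟩ := hvs j t (Finsupp.mem_support_iff.2 hne)
        exact lt_irrefl _ (hy.lt (lt_of_le_of_lt hi' hji) t hit' t hit)
      rw [Finsupp.sub_apply, this, sub_zero, hie]
    obtain ⟨A, B, hAB, hA, hB⟩ := split_list L (v j) (v n - v j) hL1 hL2
      (by rw [hL3, add_sub_cancel])
      (by
        intro s hs t ht
        obtain ⟨i, hi, his, _⟩ := hvs j s hs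
        obtain ⟨i', hi', _, hit, _⟩ := hw t ht
        exact hy.lt (lt_of_le_of_lt hi hi') s his t hit)
      (by
        intro s hs t ht
        obtain ⟨i, hi, his, hie⟩ := hvs j s hs
        obtain ⟨i', hi', _, hit, hie'⟩ := hw t ht
        rw [hie, hie']
        exact hval i i' (lt_of_le_of_lt hi hi') s his t hit)
    refine ⟨A, ⟨B, hAB.symm⟩, ?_, ?_, hA, ?_⟩
    · intro z hz
      exact hL1 z (by rw [hAB]; exact List.mem_append_left _ hz)
    · rw [hAB] at hL2
      exact hL2.sublist (List.sublist_append_left _ _)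
    · rw [hAB] at hL4
      exact goodFrom_left hL4
  choose Ln hLn using hdec
  have hsp : ∀ n j, ∃ A, j ≤ n → (A <+: Ln n ∧ A ∈ Dec R (v j)) := by
    intro n j
    by_cases hj : j ≤ n
    · obtain ⟨A, hA1, hA2⟩ := hsplit n j hj (Ln n) (hLn n)
      exact ⟨A, fun _ => ⟨hA1, hA2⟩⟩
    · exact ⟨[], fun h => absurd h hj⟩
  choose A hA using hsp
  -- ultrafilter limit
  let 𝒰 : Ultrafilter ℕ := Filter.hyperfilter ℕ
  have h𝒰 : ∀ j, ∀ᶠ n in (𝒰 : Filter ℕ), j ≤ n := by
    intro j
    have h1 : ∀ᶠ n in Filter.cofinite, j ≤ n := by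
      rw [Nat.cofinite_eq_atTop]
      exact Filter.eventually_ge_atTop j
    exact Filter.hyperfilter_le_cofinite h1
  have hlim : ∀ j, ∃ C ∈ Dec R (v j), ∀ᶠ n in (𝒰 : Filter ℕ), A n j = C := by
    intro j
    have h1 : ∀ᶠ n in (𝒰 : Filter ℕ), ∃ C ∈ Dec R (v j), A n j = C := by
      filter_upwards [h𝒰 j] with n hn
      exact ⟨_, (hA n j hn).2, rfl⟩
    have h2 := (Ultrafilter.eventually_exists_mem_iff (Dec_finite (v j))).1 h1
    exact h2
  choose C hC1 hC2 using hlim
  have hCpre : ∀ j, C j <+: C (j+1) := by
    intro j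
    obtain ⟨n, h1, h2, h3⟩ := ((hC2 j).and ((hC2 (j+1)).and (h𝒰 (j+1)))).exists
    have ha := hA n j (by omega)
    have hb := hA n (j+1) h3
    rw [h1] at ha
    rw [h2] at hb
    obtain ⟨s, hs⟩ := hy.supp_nonempty (j+1)
    refine prefix_of_sum (hLn n).2.1 ha.1 hb.1 (s := s) ?_ ?_
    · rw [ha.2.2.2.1]
      intro hs'
      obtain ⟨i, hi, his, _⟩ := hvs j s hs'
      exact lt_irrefl _ (hy.lt (Nat.lt_succ_of_le hi) s his s hs)
    · rw [hb.2.2.2.1, Finsupp.mem_support_iff, hvy (j+1) (j+1) le_rfl s hs]
      exact Finsupp.mem_support_iff.1 hs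
  have hCpre' : ∀ i j, i ≤ j → C i <+: C j := by
    intro i j hij
    induction j, hij using Nat.le_induction with
    | base => exact List.prefix_refl _
    | succ j hij ih => exact ih.trans (hCpre j)
  have hClen : ∀ j, j ≤ (C j).length := by
    intro j
    induction j with
    | zero => exact Nat.zero_le _
    | succ j ih =>
      have h1 := (hCpre j).length_le
      have h2 : (C j).length ≠ (C (j+1)).length := by
        intro he
        have he2 : C j = C (j+1) := (hCpre j).eq_of_length he
        obtain ⟨s, hs⟩ := hy.supp_nonempty (j+1)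
        have h3 : v j = v (j+1) := by
          rw [← (hC1 j).2.2.1, ← (hC1 (j+1)).2.2.1, he2]
        have h4 : s ∈ (v j).support := by
          rw [h3, Finsupp.mem_support_iff, hvy (j+1) (j+1) le_rfl s hs]
          exact Finsupp.mem_support_iff.1 hs
        obtain ⟨i, hi, his, _⟩ := hvs j s h4
        exact lt_irrefl _ (hy.lt (Nat.lt_succ_of_le hi) s his s hs)
      omega
  let U : ℕ → (ℕ →₀ F) := fun n =>
    nrm ((C (n+1))[n]'(lt_of_lt_of_le (Nat.lt_succ_self n) (hClen (n+1))))
  have hU : ∀ n j, ∀ hn : n < (C j).length, U n = nrm ((C j)[n]) := by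
    intro n j hn
    simp only [U]
    congr 1
    rcases le_total (n+1) j with hle | hle
    · exact (hCpre' _ _ hle).getElem _
    · exact ((hCpre' _ _ hle).getElem hn).symm
  refine ⟨U, ?_, ?_, ?_⟩
  · intro k
    refine ⟨nrm_ne_zero ((hC1 (k+1)).1 _ (List.getElem_mem _)).1, ?_⟩
    intro i hi j hj
    have hk2 : k + 1 < (C (k+2)).length := lt_of_lt_of_le (Nat.lt_succ_self _) (hClen (k+2))
    have hk1 : k < (C (k+2)).length := by omega
    rw [hU k (k+2) hk1, supp_nrm] at hi
    rw [hU (k+1) (k+2) hk2, supp_nrm] at hj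
    have h1 := (List.pairwise_iff_getElem.1 (hC1 (k+2)).2.1) k (k+1) hk1 hk2 (Nat.lt_succ_self k)
    exact lt_of_le_of_lt (hm_le _ i hi) (h1 j hj)
  · intro k
    have hk : k < (C (k+1)).length := lt_of_lt_of_le (Nat.lt_succ_self k) (hClen (k+1))
    have h1 := goodFrom_getElem (hC1 (k+1)).2.2.2 k hk
    have h2 : List.ofFn (fun i : Fin k => U i.val) = [] ++ ((C (k+1)).take k).map nrm := by
      rw [List.nil_append]
      apply List.ext_getElem
      · simp; omega
      · intro i h3 h4
        rw [List.getElem_ofFn, List.getElem_map, List.getElem_take]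
        have h5 : i < (C (k+1)).length := by
          simp at h3
          omega
        exact hU i (k+1) h5
    rw [h2]
    exact hRs _ _ h1 _ (inv_ne_zero (nrm_coef_ne ((hC1 (k+1)).1 _ (List.getElem_mem _)).1))
  · have hvU : ∀ j, v j ∈ Submodule.span F (Set.range U) := by
      intro j
      rw [← (hC1 j).2.2.1]
      apply list_sum_mem
      intro z hz
      obtain ⟨n, hn, hnz⟩ := List.mem_iff_getElem.1 hz
      apply mem_of_nrm_mem
      apply Submodule.subset_span
      exact ⟨n, by rw [hU n j hn, hnz]⟩
    intro n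
    cases n with
    | zero =>
      have := hvU 0
      simpa [hv] using this
    | succ n =>
      have h1 : y (n+1) = v (n+1) - v n := by
        simp only [hv]
        rw [Finset.sum_range_succ _ (n+1), add_sub_cancel_left]
      rw [h1]
      exact Submodule.sub_mem _ (hvU _) (hvU _)

end Pool.Agent.Y467.SF
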