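import Mathlib
import Pool.Agent.Y467.SF.Comp
import Pool.Agent.Y467.ST.Run

set_option autoImplicit false

/-! Over an infinite field (of any cardinality) every full block filter has the strong `(p)`
property; strong `(p)` and fullness give strategic. -/

namespace Pool.Agent.Y467.SF

open Pool.Agent.H829R3

variable {F : Type*} [Field F]

/-- Over an infinite field a block sequence can be rescaled so that different terms have no
coefficient in common. -/
theorem exists_scale [Infinite F] {Z : ℕ → (ℕ →₀ F)} (hZ : IsBlock Z) :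
    ∃ y : ℕ → (ℕ →₀ F), IsBlock y ∧
      Submodule.span F (Set.range Z) ≤ Submodule.span F (Set.range y) ∧
      (∀ n, y n ∈ Submodule.span F (Set.range Z)) ∧
      ∀ i j, i < j → ∀ s ∈ (y i).support, ∀ t ∈ (y j).support, y i s ≠ y j t := by
  classical
  have h1 : ∀ (T : Finset F) (n : ℕ), ∃ a : F, a ≠ 0 ∧ ∀ t ∈ (Z n).support, a * Z n t ∉ T := by
    intro T n
    obtain ⟨a, ha⟩ := Infinite.exists_notMem_finset
      (insert (0 : F) (((Z n).support ×ˢ T).image (fun p => p.2 / Z n p.1)))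
    rw [Finset.mem_insert, not_or] at ha
    refine ⟨a, ha.1, ?_⟩
    intro t ht hT
    apply ha.2
    rw [Finset.mem_image]
    refine ⟨(t, a * Z n t), Finset.mem_product.2 ⟨ht, hT⟩, ?_⟩
    exact mul_div_cancel_right₀ _ (Finsupp.mem_support_iff.1 ht)
  choose a ha0 haT using h1
  obtain ⟨T, hTs⟩ : ∃ T : ℕ → Finset F,
      ∀ n, T (n+1) = T n ∪ (Z n).support.image (fun t => a (T n) n * Z n t) :=
    ⟨fun n => Nat.rec ∅ (fun n T => T ∪ (Z n).support.image (fun t => a T n * Z n t)) n,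
      fun _ => rfl⟩
  have hTm : ∀ i j, i ≤ j → T i ⊆ T j := by
    intro i j hij
    induction j, hij using Nat.le_induction with
    | base => exact subset_rfl
    | succ j hij ih =>
      rw [hTs]
      exact ih.trans Finset.subset_union_left
  have hsupp : ∀ n, (a (T n) n • Z n).support = (Z n).support := fun n =>
    Finsupp.support_smul_eq (ha0 _ _)
  refine ⟨fun n => a (T n) n • Z n, ?_, ?_, ?_, ?_⟩
  · intro n
    refine ⟨smul_ne_zero (ha0 _ _) (hZ n).1, ?_⟩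
    intro i hi j hj
    rw [hsupp] at hi hj
    exact (hZ n).2 i hi j hj
  · rw [Submodule.span_le]
    rintro _ ⟨n, rfl⟩
    have h2 : a (T n) n • Z n ∈ Submodule.span F (Set.range fun n => a (T n) n • Z n) :=
      Submodule.subset_span ⟨n, rfl⟩
    have h3 := Submodule.smul_mem _ (a (T n) n)⁻¹ h2
    rwa [smul_smul, inv_mul_cancel₀ (ha0 _ _), one_smul] at h3
  · intro n
    exact Submodule.smul_mem _ _ (Submodule.subset_span ⟨n, rfl⟩)
  · intro i j hij s hs t ht he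
    rw [hsupp] at hs ht
    have h2 : a (T i) i * Z i s ∈ T (i+1) := by
      rw [hTs]
      exact Finset.mem_union_right _ (Finset.mem_image.2 ⟨s, hs, rfl⟩)
    apply haT (T j) j t ht
    have h3 := hTm (i+1) j hij h2
    have h4 : a (T i) i * Z i s = a (T j) j * Z j t := by
      simpa only [Finsupp.smul_apply, smul_eq_mul] using he
    rwa [h4] at h3

/-- The form of the strong `(p)` property with arbitrary members of the filter. -/
def StrongP (𝓕 : Filter (ℕ →₀ F)) : Prop :=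
  ∀ R : List (ℕ →₀ F) → Set (ℕ →₀ F), (∀ l, R l ∈ 𝓕) →
    ∃ U : ℕ → (ℕ →₀ F), IsBlock U ∧ sp U ∈ 𝓕 ∧
      ∀ k, U k ∈ R (List.ofFn (fun i : Fin k => U i.val))

/-- Over an infinite field every full block filter has the strong `(p)` property. -/
theorem strong_of_full [Infinite F] {𝓕 : Filter (ℕ →₀ F)} (hbase : BlockBase 𝓕)
    (hfull : Full 𝓕) : StrongP 𝓕 := by
  classical
  intro R0 hR0
  -- replace the sets by spans
  choose X hX hX𝓕 hXR using fun l => hbase _ (hR0 l)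
  let R : List (ℕ →₀ F) → Set (ℕ →₀ F) := fun l => sp (X l)
  have hR : ∀ l, R l ∈ 𝓕 := fun l => hX𝓕 l
  have hRs : ∀ l v, v ∈ R l → ∀ c : F, c ≠ 0 → c • v ∈ R l := by
    rintro l v ⟨hv, hv0⟩ c hc
    exact ⟨Submodule.smul_mem _ _ hv, smul_ne_zero hc hv0⟩
  obtain ⟨Z, hZ, hZ𝓕, hZsub⟩ := hbase _ (Dec_mem hbase hfull hR hRs)
  have hZb : IsBlock Z := hZ
  obtain ⟨y, hy, hZy, hyZ, hval⟩ := exists_scale hZb
  have hdec : ∀ n, (Dec R (∑ i ∈ Finset.range (n+1), y i)).Nonempty := by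
    intro n
    apply hZsub
    refine ⟨Submodule.sum_mem _ (fun i _ => hyZ i), ?_⟩
    intro h0
    have h0' : ∑ i ∈ Finset.range (n+1), y i = 0 := h0
    obtain ⟨t, ht⟩ := hy.supp_nonempty 0
    have h1 : (∑ i ∈ Finset.range (n+1), y i) t = y 0 t := by
      rw [Finsupp.finsetSum_apply]
      refine Finset.sum_eq_single_of_mem 0 (Finset.mem_range.2 (Nat.succ_pos n)) ?_
      intro j _ hj
      by_contra hne
      exact lt_irrefl _ (hy.lt (Nat.pos_of_ne_zero hj) t ht t (Finsupp.mem_support_iff.2 hne))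
    rw [h0'] at h1
    exact (Finsupp.mem_support_iff.1 ht) h1.symm
  obtain ⟨U, hU, hUR, hyU⟩ := exists_seq hRs hy hval hdec
  refine ⟨U, hU, Filter.mem_of_superset hZ𝓕 ?_, fun k => hXR _ (hUR k)⟩
  rintro v ⟨hv, hv0⟩
  refine ⟨?_, hv0⟩
  have h1 : Submodule.span F (Set.range y) ≤ Submodule.span F (Set.range U) := by
    rw [Submodule.span_le]
    rintro _ ⟨n, rfl⟩
    exact hyU n
  exact h1 (hZy hv)

/-- Strong `(p)` and fullness give strategic, for any class `Q` of moves containing the block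
sequences below `X` in the filter. -/
theorem strategic_of_strong {𝓕 : Filter (ℕ →₀ F)} (hbase : BlockBase 𝓕)
    (hfull : Full 𝓕) (hst : StrongP 𝓕)
    {X : ℕ → (ℕ →₀ F)} (hX𝓕 : sp X ∈ 𝓕) {Q : Set (ℕ → (ℕ →₀ F))}
    (hQ : ∀ Y, IsBlock Y → sp Y ⊆ sp X → sp Y ∈ 𝓕 → Y ∈ Q)
    {α : List (ℕ → (ℕ →₀ F)) → (ℕ →₀ F)}
    (hα : ∀ Y : ℕ → (ℕ → (ℕ →₀ F)), (∀ k, Y k ∈ Q) →
      (∀ k, play α Y k ∈ sp (Y k)) ∧ IsBlock (play α Y)) :
    ∃ Y : ℕ → (ℕ → (ℕ →₀ F)), (∀ k, Y k ∈ Q) ∧ sp (play α Y) ∈ 𝓕 := by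
  obtain ⟨U, hU, hU𝓕, hUR⟩ := hst (fun l => DPos α Q (ST.posL α Q l))
    (fun l => DPos_mem hbase hfull hX𝓕 hQ hα (ST.posL_legal l))
  obtain ⟨Y, hYQ, hYU⟩ := ST.run_of_seq (fun k => (hU k).1) hUR
  refine ⟨Y, hYQ, Filter.mem_of_superset hU𝓕 ?_⟩
  rintro v ⟨hv, hv0⟩
  exact ⟨hYU hv, hv0⟩

end Pool.Agent.Y467.SF
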