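import Mathlib
import Pool.Agent.Y467.SF.Main

set_option autoImplicit false

/-! Strong `(p)` in the form with tails, `(p)` from the local game. -/

namespace Pool.Agent.Y467.SF

open Pool.Agent.H829R3

variable {F : Type*} [Field F]

/-- Strong `(p)` in the usual form. -/
theorem strong_tails {𝓕 : Filter (ℕ →₀ F)} (hst : StrongP 𝓕)
    (V : List (ℕ →₀ F) → ℕ → (ℕ →₀ F)) (hV : ∀ l, sp (V l) ∈ 𝓕) :
    ∃ U : ℕ → (ℕ →₀ F), IsBlock U ∧ sp U ∈ 𝓕 ∧
      ∀ k : ℕ, sp (fun n => U (n + k)) ⊆ sp (V (List.ofFn (fun i : Fin k => U i.val))) := by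
  obtain ⟨U, hU, hU𝓕, hUR⟩ := hst (fun l => {v | ∀ s ∈ l.inits, v ∈ sp (V s)})
    (fun l => mem_of_list hV l.inits)
  refine ⟨U, hU, hU𝓕, ?_⟩
  intro k
  have h1 : Submodule.span F (Set.range (fun n => U (n + k))) ≤
      Submodule.span F (Set.range (V (List.ofFn (fun i : Fin k => U i.val)))) := by
    rw [Submodule.span_le]
    rintro _ ⟨n, rfl⟩
    have h2 := hUR (n + k) (List.ofFn (fun i : Fin k => U i.val)) (by
      rw [List.mem_inits]
      refine ⟨List.ofFn (fun i : Fin n => U (k + i.val)), ?_⟩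
      apply List.ext_getElem
      · simp; omega
      · intro i h3 h4
        rw [List.getElem_ofFn, List.getElem_append]
        split
        · rw [List.getElem_ofFn]
        · rename_i h5
          rw [List.getElem_ofFn]
          congr 1
          simp at h5 ⊢
          omega)
    exact h2.1
  rintro v ⟨hv, hv0⟩
  exact ⟨h1 hv, hv0⟩

/-- From the tails form to arbitrary members of the filter. -/
theorem strongP_of_tails {𝓕 : Filter (ℕ →₀ F)} (hbase : BlockBase 𝓕)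
    (h : ∀ V : List (ℕ →₀ F) → ℕ → (ℕ →₀ F), (∀ l, IsBlock (V l) ∧ sp (V l) ∈ 𝓕) →
      ∃ U : ℕ → (ℕ →₀ F), IsBlock U ∧ sp U ∈ 𝓕 ∧
        ∀ k : ℕ, Submodule.span F (Set.range (fun n => U (n + k))) ≤
          Submodule.span F (Set.range (V (List.ofFn (fun i : Fin k => U i.val))))) :
    StrongP 𝓕 := by
  intro R hR
  choose X hX hX𝓕 hXR using fun l => hbase _ (hR l)
  obtain ⟨U, hU, hU𝓕, hUs⟩ := h X (fun l => ⟨hX l, hX𝓕 l⟩)
  refine ⟨U, hU, hU𝓕, ?_⟩
  intro k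
  apply hXR
  refine ⟨?_, (hU k).1⟩
  apply hUs k
  apply Submodule.subset_span
  exact ⟨0, by simp⟩

/-- `(p)` follows if every strategy of II in the local game, in which the moves of I belong to
the filter, has an outcome in the filter. -/
theorem point_of_local {𝓕 : Filter (ℕ →₀ F)} (hcof : Cofin 𝓕) (hne : 𝓕.NeBot)
    {X : ℕ → (ℕ →₀ F)} (h0 : ({0}ᶜ : Set (ℕ →₀ F)) ∈ 𝓕)
    (hloc : ∀ α : List (ℕ → (ℕ →₀ F)) → (ℕ →₀ F),
      (∀ Y : ℕ → (ℕ → (ℕ →₀ F)), (∀ k, IsBlock (Y k) ∧ sp (Y k) ⊆ sp X ∧ sp (Y k) ∈ 𝓕) →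
        (∀ k, play α Y k ∈ sp (Y k)) ∧ IsBlock (play α Y)) →
      ∃ Y : ℕ → (ℕ → (ℕ →₀ F)), (∀ k, IsBlock (Y k) ∧ sp (Y k) ⊆ sp X ∧ sp (Y k) ∈ 𝓕) ∧
        sp (play α Y) ∈ 𝓕)
    (A : ℕ → Set (ℕ →₀ F)) (hA : ∀ m, A m ∈ 𝓕) :
    ∃ U : ℕ → (ℕ →₀ F), IsBlock U ∧ sp U ∈ 𝓕 ∧ ∀ m n, m ≤ n → U n ∈ A m := by
  classical
  -- the answers
  have hex : ∀ (W : ℕ → (ℕ →₀ F)) (k N : ℕ), sp W ∈ 𝓕 →
      ∃ y ∈ sp W, (∀ m ≤ k, y ∈ A m) ∧ ∀ t ∈ y.support, N ≤ t := by
    intro W k N hW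
    have h1 : (⋂ m ∈ Finset.range (k+1), A m) ∈ 𝓕 := by
      rw [Filter.biInter_finset_mem]
      intro m _
      exact hA m
    have h2 := hcof (tailSub F N) (tailSub_cofin N)
    obtain ⟨y, hy1, hy2, hy3⟩ := Filter.nonempty_of_mem
      (Filter.inter_mem hW (Filter.inter_mem h1 h2))
    refine ⟨y, hy1, ?_, mem_tailSub.1 hy3.1⟩
    intro m hm
    have := Set.mem_iInter₂.1 hy2 m (Finset.mem_range.2 (Nat.lt_succ_of_le hm))
    exact this
  let ans : (ℕ → (ℕ →₀ F)) → ℕ → ℕ → (ℕ →₀ F) := fun W k N =>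
    if h : sp W ∈ 𝓕 then Classical.choose (hex W k N h) else 0
  have hans : ∀ W k N, sp W ∈ 𝓕 → ans W k N ∈ sp W ∧ (∀ m ≤ k, ans W k N ∈ A m) ∧
      ∀ t ∈ (ans W k N).support, N ≤ t := by
    intro W k N h
    have h1 : ans W k N = Classical.choose (hex W k N h) := by
      simp only [ans]
      rw [dif_pos h]
    rw [h1]
    exact Classical.choose_spec (hex W k N h)
  -- the state after a list of moves: the number of moves, the last answer
  obtain ⟨st, hst0, hsts⟩ : ∃ st : List (ℕ → (ℕ →₀ F)) → ℕ × (ℕ →₀ F),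
      st [] = (0, 0) ∧ ∀ l W, st (l ++ [W]) =
        ((st l).1 + 1, ans W (st l).1 (hm (st l).2 + 1)) := by
    refine ⟨fun l => l.foldl (fun s W => (s.1 + 1, ans W s.1 (hm s.2 + 1))) (0, 0), rfl, ?_⟩
    intro l W
    simp only [List.foldl_append, List.foldl_cons, List.foldl_nil]
  have hst1 : ∀ l, (st l).1 = l.length := by
    intro l
    induction l using List.reverseRecOn with
    | nil => rw [hst0]; rfl
    | append_singleton l W ih => rw [hsts, ih]; simp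
  have hsucc : ∀ (Y : ℕ → (ℕ → (ℕ →₀ F))) (k : ℕ),
      List.ofFn (fun i : Fin (k+1) => Y i.val) = List.ofFn (fun i : Fin k => Y i.val) ++ [Y k] := by
    intro Y k
    rw [List.ofFn_succ', List.concat_eq_append]
    rfl
  let α : List (ℕ → (ℕ →₀ F)) → (ℕ →₀ F) := fun l => (st l).2
  have hplay : ∀ (Y : ℕ → (ℕ → (ℕ →₀ F))) (k : ℕ), play α Y k =
      ans (Y k) k (hm (st (List.ofFn (fun i : Fin k => Y i.val))).2 + 1) := by
    intro Y k
    have h1 : play α Y k = (st (List.ofFn (fun i : Fin (k+1) => Y i.val))).2 := rfl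
    rw [h1, hsucc, hsts, hst1, List.length_ofFn]
  have hplay2 : ∀ (Y : ℕ → (ℕ → (ℕ →₀ F))) (k : ℕ),
      play α Y (k+1) = ans (Y (k+1)) (k+1) (hm (play α Y k) + 1) := by
    intro Y k
    rw [hplay Y (k+1)]
    rfl
  obtain ⟨Y, hY, hY𝓕⟩ := hloc α (by
    intro Y hY
    refine ⟨?_, ?_⟩
    · intro k
      rw [hplay]
      exact (hans _ _ _ (hY k).2.2).1
    · intro k
      refine ⟨?_, ?_⟩
      · have h1 : play α Y k ∈ sp (Y k) := by
          rw [hplay]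
          exact (hans _ _ _ (hY k).2.2).1
        exact fun h => h1.2 h
      · intro i hi j hj
        rw [hplay2] at hj
        have h1 := (hans _ _ _ (hY (k+1)).2.2).2.2 j hj
        have h2 := hm_le _ i hi
        omega)
  have hleg : ∀ k, play α Y k ∈ sp (Y k) := by
    intro k
    rw [hplay]
    exact (hans _ _ _ (hY k).2.2).1
  refine ⟨play α Y, ?_, hY𝓕, ?_⟩
  · intro k
    refine ⟨fun h => (hleg k).2 h, ?_⟩
    intro i hi j hj
    rw [hplay2] at hj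
    have h1 := (hans _ _ _ (hY (k+1)).2.2).2.2 j hj
    have h2 := hm_le _ i hi
    omega
  · intro m n hmn
    rw [hplay]
    exact (hans _ _ _ (hY n).2.2).2.1 m hmn

end Pool.Agent.Y467.SF
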